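import Mathlib
import Pool.Agent.Lib.MP_83a7f3_pr.Defs
import Pool.Agent.Lib.MP_83a7f3_pr.Main

set_option autoImplicit false

open Pool.Agent.Lib.MP_83a7f3_pr

/-- For every `d ≥ 1` and every number `q` of colours, no shift-invariant finitely dependent
random field on `ℤ^d` supported on proper `q`-colourings is a Markov random field. -/
theorem Pool.Agent.Lib.MP_83a7f3_pr.Variants.NoMarkovField.result :
    ∀ (d q : ℕ), 1 ≤ d → ∀ (μ : MeasureTheory.Measure ((Fin d → ℤ) → Fin q)),
      MeasureTheory.IsProbabilityMeasure μ → ShiftInvariant μ → FinitelyDependent μ →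
      SupportedOnProper μ → ¬ MarkovRandomField μ := by
  intro d q hd μ hμ hS hF hP hM
  exact main hd μ hS hF hP hM
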